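import Mathlib

/-!
# Følner's condition, and expansion in groups which do not satisfy it
-/

open Finset Filter
open scoped Pointwise

namespace MP331e4fAm

open Classical in
/-- `G` is amenable: it satisfies Følner's condition (for every finite subset `S` and every `ε > 0`
there is a finite nonempty set `F` such that for every `s ∈ S` at most `ε |F|` elements of `F` are
moved out of `F` by the multiplication with `s`). -/
def Amen (G : Type*) [Group G] : Prop :=
  ∀ (S : Finset G) (ε : ℝ), 0 < ε →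
    ∃ F : Finset G, F.Nonempty ∧ ∀ s ∈ S, ((F.filter fun g => s * g ∉ F).card : ℝ) ≤ ε * F.card

variable {G : Type*} [Group G]

open Classical in
/-- one step of expansion -/
theorem expand_one (h : ¬ Amen G) :
    ∃ (T : Finset G) (δ : ℝ), 0 < δ ∧ ∀ F : Finset G, (1 + δ) * (F.card : ℝ) ≤ ((T * F).card : ℝ) := by
  unfold Amen at h
  push Not at h
  obtain ⟨S, ε, hε, hS⟩ := h
  refine ⟨insert 1 S, ε, hε, fun F => ?_⟩
  rcases F.eq_empty_or_nonempty with rfl | hF
  · simp
  obtain ⟨s, hs, hlt⟩ := hS F hF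
  have hsub : F ∪ (F.filter fun g => s * g ∉ F).image (fun g => s * g) ⊆ insert 1 S * F := by
    intro x hx
    rcases Finset.mem_union.1 hx with hx | hx
    · exact Finset.mem_mul.2 ⟨1, Finset.mem_insert_self _ _, x, hx, one_mul x⟩
    · obtain ⟨g, hg, rfl⟩ := Finset.mem_image.1 hx
      exact Finset.mem_mul.2 ⟨s, Finset.mem_insert_of_mem hs, g, (Finset.mem_filter.1 hg).1, rfl⟩
  have hdisj : Disjoint F ((F.filter fun g => s * g ∉ F).image (fun g => s * g)) := by
    rw [Finset.disjoint_left]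
    intro x hx hx'
    obtain ⟨g, hg, rfl⟩ := Finset.mem_image.1 hx'
    exact (Finset.mem_filter.1 hg).2 hx
  have hcard := Finset.card_le_card hsub
  rw [Finset.card_union_of_disjoint hdisj,
    Finset.card_image_of_injective _ (mul_right_injective s)] at hcard
  have hcard' : (F.card : ℝ) + ((F.filter fun g => s * g ∉ F).card : ℝ) ≤
      ((insert 1 S * F).card : ℝ) := by exact_mod_cast hcard
  linarith

open Classical in
/-- powers of the expanding set -/
theorem expand_pow {T : Finset G} {δ : ℝ} (hδ : 0 < δ)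
    (h : ∀ F : Finset G, (1 + δ) * (F.card : ℝ) ≤ ((T * F).card : ℝ)) (k : ℕ) :
    ∀ F : Finset G, (1 + δ) ^ k * (F.card : ℝ) ≤ ((T ^ k * F).card : ℝ) := by
  induction k with
  | zero => intro F; simp
  | succ k ih =>
    intro F
    have h1 := h (T ^ k * F)
    have h2 := ih F
    rw [pow_succ' T, mul_assoc]
    calc (1 + δ) ^ (k + 1) * (F.card : ℝ) = (1 + δ) * ((1 + δ) ^ k * (F.card : ℝ)) := by ring
      _ ≤ (1 + δ) * ((T ^ k * F).card : ℝ) := mul_le_mul_of_nonneg_left h2 (by linarith)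
      _ ≤ _ := h1

theorem exp_beats {δ : ℝ} (hδ : 0 < δ) (a : ℕ) :
    ∃ k : ℕ, 4 * ((a * k : ℕ) + 1 : ℝ) ≤ (1 + δ) ^ k := by
  have h1 : (fun n : ℕ => ((n : ℝ)) ^ 1) =o[atTop] fun n : ℕ => (1 + δ) ^ n :=
    isLittleO_pow_const_const_pow_of_one_lt 1 (by linarith)
  have h2 := h1.def (c := 1 / (4 * ((a : ℝ) + 1))) (by positivity)
  obtain ⟨k, hk, hk1⟩ := (h2.and (eventually_ge_atTop 1)).exists
  refine ⟨k, ?_⟩
  have hk1' : (1 : ℝ) ≤ k := by exact_mod_cast hk1
  rw [pow_one, Real.norm_of_nonneg (by positivity), Real.norm_of_nonneg (by positivity),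
    one_div, inv_mul_eq_div, le_div_iff₀ (by positivity)] at hk
  push_cast
  nlinarith

open Classical in
/-- a set `S` with at most `2 ^ l` elements such that `S F` has at least `4 (l + 1) |F|` elements for
all finite sets `F` -/
theorem exists_expander (h : ¬ Amen G) :
    ∃ (S : Finset G) (l : ℕ), S.card ≤ 2 ^ l ∧
      ∀ F : Finset G, 4 * (l + 1) * F.card ≤ (S * F).card := by
  obtain ⟨T, δ, hδ, hT⟩ := expand_one h
  obtain ⟨a, ha⟩ : ∃ a : ℕ, T.card ≤ 2 ^ a := ⟨T.card, Nat.lt_two_pow_self.le⟩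
  obtain ⟨k, hk⟩ := exp_beats hδ a
  refine ⟨T ^ k, a * k, ?_, fun F => ?_⟩
  · calc (T ^ k).card ≤ T.card ^ k := Finset.card_pow_le
      _ ≤ (2 ^ a) ^ k := Nat.pow_le_pow_left ha k
      _ = 2 ^ (a * k) := by rw [← pow_mul]
  · have h1 := expand_pow hδ hT k F
    have h2 : 4 * ((a * k : ℕ) + 1 : ℝ) * (F.card : ℝ) ≤ ((T ^ k * F).card : ℝ) :=
      (mul_le_mul_of_nonneg_right hk (Nat.cast_nonneg _)).trans h1
    exact_mod_cast h2

end MP331e4fAm
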