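import Pool.Agent.Lib_MP_331e4f_am.Pair
import Pool.Agent.Lib_MP_331e4f_al.PGroup

/-!
# Commuting subgroups
-/

open Finset

universe u

namespace MP331e4fAm

open MP331e4f (aug AugRad)

theorem augRad_of_surjective {K : Type*} [Field K] {G H : Type*} [Group G] [Group H]
    (h : AugRad K G) (f : G →* H) (hf : Function.Surjective f) : AugRad K H := by
  intro s
  obtain ⟨g, rfl⟩ := hf s
  rw [MP331e4f.mem_rad_iff]
  intro y
  obtain ⟨π, hπ⟩ : ∃ π : MonoidAlgebra K G →+* MonoidAlgebra K H,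
    π = MonoidAlgebra.mapDomainRingHom K f := ⟨_, rfl⟩
  have hπs : ∀ (g : G) (c : K), π (MonoidAlgebra.single g c) = MonoidAlgebra.single (f g) c := by
    intro g c
    rw [hπ]
    simp [MonoidAlgebra.mapDomainRingHom]
  have hsur : ∀ y, ∃ x, π x = y := by
    intro y
    induction y using MonoidAlgebra.induction_linear with
    | zero => exact ⟨0, map_zero _⟩
    | add a b ha hb =>
      obtain ⟨a', rfl⟩ := ha
      obtain ⟨b', rfl⟩ := hb
      exact ⟨a' + b', map_add _ _ _⟩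
    | single h c =>
      obtain ⟨g, rfl⟩ := hf h
      exact ⟨MonoidAlgebra.single g c, hπs g c⟩
  obtain ⟨y', rfl⟩ := hsur y
  obtain ⟨z, hz⟩ := MP331e4f.mem_rad_iff.1 (h g) y'
  refine ⟨π z, ?_⟩
  have h1 := congrArg π hz
  rw [map_add, map_mul, map_mul, map_sub, map_one] at h1
  have h2 : π (MonoidAlgebra.of K G g) = MonoidAlgebra.of K H (f g) := hπs g 1
  rw [h2] at h1
  exact h1

open Classical in
theorem amen_of_central {H Q : Type*} [Group H] [Group Q] (π : H →* Q)
    (hπ : Function.Surjective π) (htor : ∀ h : H, IsOfFinOrder h)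
    (hcen : ∀ z : H, π z = 1 → ∀ h : H, z * h = h * z) (hQ : Amen Q) : Amen H := by
  intro S ε hε
  obtain ⟨F, hF, hFS⟩ := hQ (S.image π) ε hε
  obtain ⟨σ, hσ⟩ : ∃ σ : Q → H, ∀ q, π (σ q) = q := ⟨_, Function.surjInv_eq hπ⟩
  obtain ⟨T, hT⟩ : ∃ T : Finset H, T = (S ×ˢ F).image
    (fun sg => (σ (π sg.1 * sg.2))⁻¹ * (sg.1 * σ sg.2)) := ⟨_, rfl⟩
  have hTk : ∀ t ∈ T, π t = 1 := by
    intro t ht
    rw [hT, Finset.mem_image] at ht
    obtain ⟨sg, -, rfl⟩ := ht
    rw [map_mul, map_inv, map_mul, hσ, hσ, inv_mul_cancel]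
  have hcomm : ∀ x ∈ (T : Set H), ∀ y ∈ (T : Set H), x * y = y * x := fun x hx y _ =>
    hcen x (hTk x hx) y
  obtain ⟨Z, hZ⟩ : ∃ Z : Subgroup H, Z = Subgroup.closure (T : Set H) := ⟨_, rfl⟩
  have hZk : Z ≤ π.ker := by
    rw [hZ, Subgroup.closure_le]
    intro t ht
    exact hTk t ht
  have hZfin : Finite Z := by
    let _ : CommGroup Z := { (inferInstance : Group Z) with
      mul_comm := fun a b => Subtype.ext (hcen a (hZk a.2) b) }
    have hfg : Group.FG Z := (Group.fg_iff_subgroup_fg Z).2 ⟨T, hZ.symm⟩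
    refine CommGroup.finite_of_fg_isMulTorsion Z ?_
    intro z
    have h1 := htor (z : H)
    rw [isOfFinOrder_iff_pow_eq_one] at h1 ⊢
    obtain ⟨n, hn, h2⟩ := h1
    exact ⟨n, hn, Subtype.ext h2⟩
  obtain ⟨Zf, hZf⟩ : ∃ Zf : Finset H, ∀ x, x ∈ Zf ↔ x ∈ Z :=
    ⟨(Set.toFinite (Z : Set H)).toFinset, fun x => by rw [Set.Finite.mem_toFinset]; rfl⟩
  obtain ⟨E, hE⟩ : ∃ E : Finset H, E = (F ×ˢ Zf).image (fun gz => σ gz.1 * gz.2) := ⟨_, rfl⟩
  have hinj : Set.InjOn (fun gz : Q × H => σ gz.1 * gz.2) (F ×ˢ Zf : Finset (Q × H)) := by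
    rintro ⟨g, z⟩ h1 ⟨g', z'⟩ h2 h3
    simp only [Finset.coe_product, Set.mem_prod, Finset.mem_coe] at h1 h2
    have h4 : g = g' := by
      have h5 := congrArg π h3
      simp only [map_mul, hσ] at h5
      rwa [MonoidHom.mem_ker.1 (hZk ((hZf z).1 h1.2)), MonoidHom.mem_ker.1 (hZk ((hZf z').1 h2.2)),
        mul_one, mul_one] at h5
    subst h4
    exact congrArg (Prod.mk g) (mul_left_cancel h3)
  have hcard : E.card = F.card * Zf.card := by
    rw [hE, Finset.card_image_of_injOn hinj, Finset.card_product]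
  have hZne : Zf.Nonempty := ⟨1, (hZf 1).2 Z.one_mem⟩
  refine ⟨E, ?_, ?_⟩
  · rw [← Finset.card_pos, hcard]
    exact Nat.mul_pos hF.card_pos hZne.card_pos
  · intro s hs
    have h1 : (E.filter fun g => s * g ∉ E) ⊆
        ((F.filter fun g => π s * g ∉ F) ×ˢ Zf).image (fun gz => σ gz.1 * gz.2) := by
      intro g hg
      rw [Finset.mem_filter] at hg
      obtain ⟨hg1, hg2⟩ := hg
      rw [hE, Finset.mem_image] at hg1
      obtain ⟨⟨q, z⟩, h2, rfl⟩ := hg1
      rw [Finset.mem_product] at h2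
      refine Finset.mem_image.2 ⟨(q, z), Finset.mem_product.2 ⟨Finset.mem_filter.2 ⟨h2.1, ?_⟩, h2.2⟩,
        rfl⟩
      intro h3
      apply hg2
      rw [hE, Finset.mem_image]
      refine ⟨(π s * q, (σ (π s * q))⁻¹ * (s * σ q) * z), Finset.mem_product.2 ⟨h3, ?_⟩, ?_⟩
      · rw [hZf]
        refine Z.mul_mem ?_ ((hZf z).1 h2.2)
        rw [hZ]
        apply Subgroup.subset_closure
        rw [Finset.mem_coe, hT]
        exact Finset.mem_image.2 ⟨(s, q), Finset.mem_product.2 ⟨hs, h2.1⟩, rfl⟩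
      · simp only
        group
    have h2 : (E.filter fun g => s * g ∉ E).card ≤ (F.filter fun g => π s * g ∉ F).card * Zf.card :=
      (Finset.card_le_card h1).trans (Finset.card_image_le.trans (Finset.card_product _ _).le)
    calc ((E.filter fun g => s * g ∉ E).card : ℝ)
        ≤ (((F.filter fun g => π s * g ∉ F).card * Zf.card : ℕ) : ℝ) := by exact_mod_cast h2
      _ = ((F.filter fun g => π s * g ∉ F).card : ℝ) * Zf.card := by push_cast; ring
      _ ≤ (ε * F.card) * Zf.card := by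
          refine mul_le_mul_of_nonneg_right ?_ (Nat.cast_nonneg _)
          exact hFS (π s) (Finset.mem_image_of_mem π hs)
      _ = ε * E.card := by rw [hcard]; push_cast; ring

theorem amen_of_commute (K : Type u) [Field K] {G : Type*} [Group G] (haug : AugRad K G)
    (H H' : Subgroup G) (hc : ∀ a ∈ H, ∀ b ∈ H', a * b = b * a) : Amen H ∨ Amen H' := by
  have htor : ∀ x : G, IsOfFinOrder x := fun x => haug.isOfFinOrder x
  obtain ⟨f, hf⟩ : ∃ f : H × H' →* G, ∀ a b, f (a, b) = (a : G) * (b : G) :=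
    ⟨MonoidHom.noncommCoprod H.subtype H'.subtype (fun a b => hc a a.2 b b.2), fun _ _ => rfl⟩
  have hn1 : (H'.subgroupOf H).Normal := by
    refine ⟨fun n hn g => ?_⟩
    rw [Subgroup.mem_subgroupOf] at hn ⊢
    have h1 : ((g * n * g⁻¹ : H) : G) = n := by
      push_cast
      rw [hc g g.2 n hn, mul_assoc, mul_inv_cancel, mul_one]
    rw [h1]; exact hn
  have hn2 : (H.subgroupOf H').Normal := by
    refine ⟨fun n hn g => ?_⟩
    rw [Subgroup.mem_subgroupOf] at hn ⊢
    have h1 : ((g * n * g⁻¹ : H') : G) = n := by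
      push_cast
      rw [← hc n hn g g.2, mul_assoc, mul_inv_cancel, mul_one]
    rw [h1]; exact hn
  obtain ⟨π, hπ⟩ : ∃ π : H × H' →* (H ⧸ H'.subgroupOf H) × (H' ⧸ H.subgroupOf H'),
    ∀ a b, π (a, b) = (QuotientGroup.mk' _ a, QuotientGroup.mk' _ b) :=
    ⟨MonoidHom.prodMap (QuotientGroup.mk' _) (QuotientGroup.mk' _), fun _ _ => rfl⟩
  have hπs : Function.Surjective π := by
    rintro ⟨x, y⟩
    obtain ⟨a, rfl⟩ := QuotientGroup.mk'_surjective _ x
    obtain ⟨b, rfl⟩ := QuotientGroup.mk'_surjective _ y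
    exact ⟨(a, b), hπ a b⟩
  have hker : f.rangeRestrict.ker ≤ π.ker := by
    rintro ⟨a, b⟩ hab
    rw [MonoidHom.mem_ker] at hab ⊢
    have h1 : (a : G) * (b : G) = 1 := by
      rw [← hf]
      exact congrArg Subtype.val hab
    have ha : (a : G) ∈ H' := by
      rw [eq_inv_of_mul_eq_one_left h1]; exact H'.inv_mem b.2
    have hb : (b : G) ∈ H := by
      rw [eq_inv_of_mul_eq_one_right h1]; exact H.inv_mem a.2
    rw [hπ, Prod.mk_eq_one]
    constructor
    · rw [QuotientGroup.mk'_apply, QuotientGroup.eq_one_iff, Subgroup.mem_subgroupOf]; exact ha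
    · rw [QuotientGroup.mk'_apply, QuotientGroup.eq_one_iff, Subgroup.mem_subgroupOf]; exact hb
  obtain ⟨ρ, hρ⟩ : ∃ ρ : f.range →* (H ⧸ H'.subgroupOf H) × (H' ⧸ H.subgroupOf H'),
      ∀ x, ρ (f.rangeRestrict x) = π x :=
    ⟨f.rangeRestrict.liftOfSurjective f.rangeRestrict_surjective ⟨π, hker⟩, fun x =>
      MonoidHom.liftOfRightInverse_comp_apply _ _ _ _ x⟩
  have hρs : Function.Surjective ρ := by
    intro y
    obtain ⟨x, rfl⟩ := hπs y
    exact ⟨_, hρ x⟩
  have h1 : AugRad K ((H ⧸ H'.subgroupOf H) × (H' ⧸ H.subgroupOf H')) :=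
    augRad_of_surjective (haug.restrict f.range) ρ hρs
  rcases pair K h1 with h2 | h2
  · left
    refine amen_of_central (QuotientGroup.mk' (H'.subgroupOf H)) (QuotientGroup.mk'_surjective _)
      ?_ ?_ h2
    · intro x
      exact Submonoid.isOfFinOrder_coe.1 (htor x)
    · intro z hz h
      rw [QuotientGroup.mk'_apply, QuotientGroup.eq_one_iff, Subgroup.mem_subgroupOf] at hz
      exact Subtype.ext (hc h h.2 z hz).symm
  · right
    refine amen_of_central (QuotientGroup.mk' (H.subgroupOf H')) (QuotientGroup.mk'_surjective _)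
      ?_ ?_ h2
    · intro x
      exact Submonoid.isOfFinOrder_coe.1 (htor x)
    · intro z hz h
      rw [QuotientGroup.mk'_apply, QuotientGroup.eq_one_iff, Subgroup.mem_subgroupOf] at hz
      exact Subtype.ext (hc z hz h h.2)

end MP331e4fAm
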