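import Pool.Agent.Lib_MP_331e4f_am.Amen

/-!
# The injective linear cellular automaton: combinatorial core

`f g` is a polynomial of degree less than `2 (l + 1) 2 ^ l` for every `g` in the group. A node `ν i s c`
in a field is given for all `i ≤ l`, `s ∈ S`, `c < 2 ^ (l - i)`. If `S` expands and the Vandermonde
relations hold, then `f = 0`.
-/

open Finset Filter Polynomial
open scoped Pointwise

namespace MP331e4fAm

/-- power sums determine coefficients -/
theorem vdm {ι L : Type*} [Field L] (J : Finset ι) (ν a : ι → L) (N : ℕ) (hJ : J.card ≤ N)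
    (hν : Set.InjOn ν J) (h : ∀ t < N, ∑ j ∈ J, a j * ν j ^ t = 0) : ∀ j ∈ J, a j = 0 := by
  classical
  intro j hj
  have key : ∀ P : L[X], P.natDegree < N → ∑ k ∈ J, a k * P.eval (ν k) = 0 := by
    intro P hP
    have h1 : ∀ k ∈ J, a k * P.eval (ν k) = ∑ t ∈ range N, P.coeff t * (a k * ν k ^ t) := by
      intro k _
      rw [Polynomial.eval_eq_sum_range' hP, Finset.mul_sum]
      exact Finset.sum_congr rfl fun t _ => by ring
    rw [Finset.sum_congr rfl h1, Finset.sum_comm]
    refine Finset.sum_eq_zero fun t ht => ?_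
    rw [← Finset.mul_sum, h t (Finset.mem_range.1 ht), mul_zero]
  have hpos : 0 < J.card := Finset.card_pos.2 ⟨j, hj⟩
  have hdeg : (∏ k ∈ J.erase j, (X - C (ν k))).natDegree < N := by
    rw [Polynomial.natDegree_prod_of_monic _ _ fun k _ => Polynomial.monic_X_sub_C _]
    simp only [Polynomial.natDegree_X_sub_C, Finset.sum_const, smul_eq_mul, mul_one]
    rw [Finset.card_erase_of_mem hj]
    omega
  have h2 := key _ hdeg
  rw [← Finset.add_sum_erase J _ hj] at h2
  have h3 : ∑ x ∈ J.erase j, a x * (∏ k ∈ J.erase j, (X - C (ν k))).eval (ν x) = 0 := by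
    refine Finset.sum_eq_zero fun x hx => ?_
    rw [Polynomial.eval_prod, Finset.prod_eq_zero hx (by simp), mul_zero]
  rw [h3, add_zero, Polynomial.eval_prod] at h2
  rcases mul_eq_zero.1 h2 with h4 | h4
  · exact h4
  · exfalso
    rw [Finset.prod_eq_zero_iff] at h4
    obtain ⟨k, hk, h5⟩ := h4
    rw [Polynomial.eval_sub, Polynomial.eval_X, Polynomial.eval_C, sub_eq_zero] at h5
    exact (Finset.ne_of_mem_erase hk) (hν (Finset.mem_of_mem_erase hk) hj h5.symm)

/-- the weight of a multiplicity -/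
def wt (l j : ℕ) : ℕ := ∑ i ∈ (range (l + 1)).filter (fun i => j ≤ 2 ^ i), 2 ^ (l - i)

theorem wt_bound {l j : ℕ} (hj : 1 ≤ j) (hl : j ≤ 2 ^ l) : 2 ^ l ≤ 2 * (j * wt l j) := by
  classical
  have hex : ∃ i, j ≤ 2 ^ i := ⟨l, hl⟩
  set i := Nat.find hex with hi
  have h1 : j ≤ 2 ^ i := Nat.find_spec hex
  have hil : i ≤ l := Nat.find_min' hex hl
  have h2 : 2 ^ (l - i) ≤ wt l j :=
    Finset.single_le_sum (f := fun i => 2 ^ (l - i)) (fun _ _ => Nat.zero_le _)
      (Finset.mem_filter.2 ⟨Finset.mem_range.2 (by omega), h1⟩)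
  have h3 : 2 ^ i ≤ 2 * j := by
    rcases Nat.eq_zero_or_pos i with h0 | h0
    · rw [h0]; omega
    · have h4 : ¬ j ≤ 2 ^ (i - 1) := Nat.find_min hex (by omega)
      have h5 : 2 ^ i = 2 * 2 ^ (i - 1) := by
        rw [← pow_succ']
        congr 1
        omega
      omega
  calc 2 ^ l = 2 ^ i * 2 ^ (l - i) := by rw [← pow_add]; congr 1; omega
    _ ≤ 2 * j * wt l j := Nat.mul_le_mul h3 h2
    _ = 2 * (j * wt l j) := by ring

variable {G : Type*} [Group G] {L : Type*} [Field L]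

open Classical in
theorem core (S : Finset G) (l : ℕ) (hS : S.card ≤ 2 ^ l)
    (hexp : ∀ F : Finset G, 4 * (l + 1) * F.card ≤ (S * F).card)
    (ν : ℕ → G → ℕ → L)
    (hν : ∀ i s c i' s' c', i ≤ l → s ∈ S → c < 2 ^ (l - i) → i' ≤ l → s' ∈ S →
      c' < 2 ^ (l - i') → ν i s c = ν i' s' c' → i = i' ∧ s = s' ∧ c = c')
    (f : G → L[X]) (F : Finset G) (hF : ∀ g, f g ≠ 0 ↔ g ∈ F)
    (hdeg : ∀ g, (f g).natDegree < 2 * ((l + 1) * 2 ^ l))
    (h : ∀ y, ∀ i ≤ l, ∀ t < 2 ^ l, ∑ s ∈ S, ∑ c ∈ range (2 ^ (l - i)),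
      (f (s⁻¹ * y)).eval (ν i s c) * (ν i s c) ^ t = 0) : f = 0 := by
  set Sy : G → Finset G := fun y => S.filter fun s => s⁻¹ * y ∈ F with hSy
  -- step A
  have hA : ∀ y, ∀ i ≤ l, (Sy y).card ≤ 2 ^ i → ∀ s ∈ Sy y, ∀ c < 2 ^ (l - i),
      (f (s⁻¹ * y)).eval (ν i s c) = 0 := by
    intro y i hi hcard s hs c hc
    have hJ : ((Sy y) ×ˢ range (2 ^ (l - i))).card ≤ 2 ^ l := by
      rw [Finset.card_product, Finset.card_range]
      calc (Sy y).card * 2 ^ (l - i) ≤ 2 ^ i * 2 ^ (l - i) := Nat.mul_le_mul_right _ hcard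
        _ = 2 ^ l := by rw [← pow_add]; congr 1; omega
    refine vdm ((Sy y) ×ˢ range (2 ^ (l - i))) (fun q => ν i q.1 q.2)
      (fun q => (f (q.1⁻¹ * y)).eval (ν i q.1 q.2)) (2 ^ l) hJ ?_ ?_ (s, c)
      (Finset.mem_product.2 ⟨hs, Finset.mem_range.2 hc⟩)
    · intro q hq q' hq' hqq
      have h1 := Finset.mem_product.1 (Finset.mem_coe.1 hq)
      have h2 := Finset.mem_product.1 (Finset.mem_coe.1 hq')
      obtain ⟨-, h3, h4⟩ := hν i q.1 q.2 i q'.1 q'.2 hi (Finset.mem_filter.1 h1.1).1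
        (Finset.mem_range.1 h1.2) hi (Finset.mem_filter.1 h2.1).1 (Finset.mem_range.1 h2.2) hqq
      exact Prod.ext h3 h4
    · intro t ht
      rw [Finset.sum_product, ← h y i hi t ht]
      rw [hSy]
      simp only
      rw [Finset.sum_filter]
      refine Finset.sum_congr rfl fun s _ => ?_
      split_ifs with hsF
      · rfl
      · have h0 : f (s⁻¹ * y) = 0 := by
          by_contra h0
          exact hsF ((hF _).1 h0)
        simp [h0]
  by_contra hne
  have hFne : F.Nonempty := by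
    obtain ⟨g, hg⟩ : ∃ g, f g ≠ 0 := by
      by_contra hcon
      push Not at hcon
      exact hne (funext hcon)
    exact ⟨g, (hF g).1 hg⟩
  -- the number of roots
  have hroots : ∀ g ∈ F, ∑ s ∈ S, wt l (Sy (s * g)).card < 2 * ((l + 1) * 2 ^ l) := by
    intro g hg
    set R : Finset (G × ℕ × ℕ) := (S ×ˢ (range (l + 1) ×ˢ range (2 ^ l))).filter
      fun q => (Sy (q.1 * g)).card ≤ 2 ^ q.2.1 ∧ q.2.2 < 2 ^ (l - q.2.1) with hR
    have hwt : ∀ j : ℕ, wt l j = ((range (l + 1) ×ˢ range (2 ^ l)).filter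
            fun q => j ≤ 2 ^ q.1 ∧ q.2 < 2 ^ (l - q.1)).card := by
      intro j
      unfold wt
      rw [Finset.card_eq_sum_ones, Finset.sum_filter, Finset.sum_filter, Finset.sum_product]
      refine Finset.sum_congr rfl fun i _ => ?_
      split_ifs with hi
      · have h2 : (range (2 ^ l)).filter (fun c => c < 2 ^ (l - i)) = range (2 ^ (l - i)) := by
          ext c
          simp only [Finset.mem_filter, Finset.mem_range, and_iff_right_iff_imp]
          intro hc
          exact hc.trans_le (Nat.pow_le_pow_right (by norm_num) (by omega))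
        simp only [hi, true_and]
        rw [← Finset.sum_filter, h2]
        simp
      · simp [hi]
    have hcardR : R.card = ∑ s ∈ S, wt l (Sy (s * g)).card := by
      rw [hR, Finset.card_eq_sum_ones, Finset.sum_filter, Finset.sum_product]
      refine Finset.sum_congr rfl fun s _ => ?_
      rw [hwt, Finset.card_eq_sum_ones, Finset.sum_filter]
    have hinj : Set.InjOn (fun q : G × ℕ × ℕ => ν q.2.1 q.1 q.2.2) R := by
      intro q hq q' hq' hqq
      obtain ⟨h1, h2, h3⟩ := Finset.mem_filter.1 (Finset.mem_coe.1 hq)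
      obtain ⟨h1', h2', h3'⟩ := Finset.mem_filter.1 (Finset.mem_coe.1 hq')
      rw [Finset.mem_product, Finset.mem_product, Finset.mem_range] at h1 h1'
      obtain ⟨e1, e2, e3⟩ := hν q.2.1 q.1 q.2.2 q'.2.1 q'.1 q'.2.2 (by omega) h1.1 h3
        (by omega) h1'.1 h3' hqq
      exact Prod.ext e2 (Prod.ext e1 e3)
    have hfg : f g ≠ 0 := (hF g).2 hg
    have hsub : R.image (fun q : G × ℕ × ℕ => ν q.2.1 q.1 q.2.2) ⊆ (f g).roots.toFinset := by
      intro x hx
      obtain ⟨q, hq, rfl⟩ := Finset.mem_image.1 hx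
      obtain ⟨h1, h2, h3⟩ := Finset.mem_filter.1 hq
      rw [Finset.mem_product, Finset.mem_product, Finset.mem_range] at h1
      rw [Multiset.mem_toFinset, Polynomial.mem_roots hfg, Polynomial.IsRoot.def]
      have hmem : q.1 ∈ Sy (q.1 * g) := by
        rw [hSy]
        simp only [Finset.mem_filter, inv_mul_cancel_left]
        exact ⟨h1.1, hg⟩
      have := hA (q.1 * g) q.2.1 (by omega) h2 q.1 hmem q.2.2 h3
      rwa [inv_mul_cancel_left] at this
    calc ∑ s ∈ S, wt l (Sy (s * g)).card = R.card := hcardR.symm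
      _ = (R.image (fun q : G × ℕ × ℕ => ν q.2.1 q.1 q.2.2)).card :=
        (Finset.card_image_of_injOn hinj).symm
      _ ≤ (f g).roots.toFinset.card := Finset.card_le_card hsub
      _ ≤ Multiset.card (f g).roots := Multiset.toFinset_card_le _
      _ ≤ (f g).natDegree := Polynomial.card_roots' _
      _ < _ := hdeg g
  -- double counting
  have hsum1 : ∑ g ∈ F, ∑ s ∈ S, wt l (Sy (s * g)).card < F.card * (2 * ((l + 1) * 2 ^ l)) := by
    calc ∑ g ∈ F, ∑ s ∈ S, wt l (Sy (s * g)).card < ∑ _g ∈ F, 2 * ((l + 1) * 2 ^ l) :=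
          Finset.sum_lt_sum_of_nonempty hFne hroots
      _ = F.card * (2 * ((l + 1) * 2 ^ l)) := by rw [Finset.sum_const, smul_eq_mul]
  have hsum2 : ∑ g ∈ F, ∑ s ∈ S, wt l (Sy (s * g)).card =
      ∑ y ∈ S * F, (Sy y).card * wt l (Sy y).card := by
    rw [← Finset.sum_product' (f := fun g s => wt l (Sy (s * g)).card),
      ← Finset.sum_fiberwise_of_maps_to (s := F ×ˢ S) (t := S * F) (g := fun q => q.2 * q.1)
        (fun q hq => Finset.mul_mem_mul (Finset.mem_product.1 hq).2 (Finset.mem_product.1 hq).1)]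
    refine Finset.sum_congr rfl fun y _ => ?_
    have h1 : ∀ q ∈ (F ×ˢ S).filter (fun q => q.2 * q.1 = y),
        wt l (Sy (q.2 * q.1)).card = wt l (Sy y).card := by
      intro q hq
      rw [(Finset.mem_filter.1 hq).2]
    rw [Finset.sum_congr rfl h1, Finset.sum_const, smul_eq_mul]
    congr 1
    refine Finset.card_bij' (fun q _ => q.2) (fun s _ => (s⁻¹ * y, s)) ?_ ?_ ?_ ?_
    · intro q hq
      obtain ⟨h2, h3⟩ := Finset.mem_filter.1 hq
      rw [Finset.mem_product] at h2
      rw [hSy]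
      simp only [Finset.mem_filter]
      refine ⟨h2.2, ?_⟩
      rw [← h3, inv_mul_cancel_left]
      exact h2.1
    · intro s hs
      rw [hSy] at hs
      simp only [Finset.mem_filter] at hs
      simp only [Finset.mem_filter, Finset.mem_product, mul_inv_cancel_left, and_true]
      exact ⟨hs.2, hs.1⟩
    · intro q hq
      obtain ⟨h2, h3⟩ := Finset.mem_filter.1 hq
      refine Prod.ext ?_ rfl
      simp only
      rw [← h3, inv_mul_cancel_left]
    · intro s hs
      rfl
  have hlow : ∀ y ∈ S * F, 2 ^ l ≤ 2 * ((Sy y).card * wt l (Sy y).card) := by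
    intro y hy
    obtain ⟨s, hs, g, hg, rfl⟩ := Finset.mem_mul.1 hy
    refine wt_bound ?_ ((Finset.card_filter_le _ _).trans hS)
    refine Finset.card_pos.2 ⟨s, ?_⟩
    rw [hSy]
    simp only [Finset.mem_filter, inv_mul_cancel_left]
    exact ⟨hs, hg⟩
  have hsum3 : (S * F).card * 2 ^ l ≤ 2 * ∑ y ∈ S * F, (Sy y).card * wt l (Sy y).card := by
    rw [Finset.mul_sum, ← smul_eq_mul, ← Finset.sum_const]
    exact Finset.sum_le_sum hlow
  have h4 := hexp F
  have h5 : 4 * (l + 1) * F.card * 2 ^ l ≤ (S * F).card * 2 ^ l := Nat.mul_le_mul_right _ h4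
  rw [← hsum2] at hsum3
  have h6 : 2 * (F.card * (2 * ((l + 1) * 2 ^ l))) = 4 * (l + 1) * F.card * 2 ^ l := by ring
  omega

end MP331e4fAm
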