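import Pool.Agent.Lib_MP_331e4f_am.Core
import Pool.Agent.Lib_MP_331e4f_al.Alg

/-!
# Injective matrices of augmentation zero over group algebras of non-amenable groups
-/

open Finset Filter Polynomial
open scoped Pointwise

universe u

namespace MP331e4fAm

open MP331e4f (aug)

/-- evaluation of the polynomial with coefficients `u` -/
noncomputable def tp {L : Type*} [Field L] {n : ℕ} (u : Fin n → L) : L[X] :=
  ∑ j : Fin n, C (u j) * X ^ (j : ℕ)

theorem tp_eval {L : Type*} [Field L] {n : ℕ} (u : Fin n → L) (x : L) :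
    (tp u).eval x = ∑ j : Fin n, u j * x ^ (j : ℕ) := by
  simp [tp, Polynomial.eval_finsetSum]

theorem tp_natDegree {L : Type*} [Field L] {n : ℕ} (hn : 0 < n) (u : Fin n → L) :
    (tp u).natDegree < n := by
  unfold tp
  refine lt_of_le_of_lt (Polynomial.natDegree_sum_le_of_forall_le (n := n - 1) _ _ ?_) (by omega)
  intro j _
  refine (Polynomial.natDegree_C_mul_X_pow_le _ _).trans ?_
  have := j.2
  omega

theorem tp_coeff {L : Type*} [Field L] {n : ℕ} (u : Fin n → L) (j : Fin n) :
    (tp u).coeff j = u j := by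
  unfold tp
  rw [Polynomial.finsetSum_coeff]
  simp only [Polynomial.coeff_C_mul, Polynomial.coeff_X_pow]
  rw [Finset.sum_eq_single j]
  · simp
  · intro b _ hb
    have : (j : ℕ) ≠ b := fun h => hb (Fin.ext h.symm)
    simp [this]
  · intro h
    exact absurd (Finset.mem_univ j) h

theorem tp_eq_zero {L : Type*} [Field L] {n : ℕ} {u : Fin n → L} (h : tp u = 0) : u = 0 := by
  funext j
  rw [← tp_coeff u j, h]
  simp

/-- a finite extension with enough elements -/
theorem exists_nodes (k : Type u) [Field k] {G : Type*} (S : Finset G) (l : ℕ) :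
    ∃ (L : Type u) (_ : Field L) (_ : Algebra k L) (_ : FiniteDimensional k L) (ν : ℕ → G → ℕ → L),
      ∀ i s c i' s' c', i ≤ l → s ∈ S → c < 2 ^ (l - i) → i' ≤ l → s' ∈ S →
      c' < 2 ^ (l - i') → ν i s c = ν i' s' c' → i = i' ∧ s = s' ∧ c = c' := by
  classical
  obtain ⟨idx, hidx⟩ := Set.countable_iff_exists_injOn.1 (S.finite_toSet.countable)
  set Ω := AlgebraicClosure k
  let emb : ℕ ↪ Ω := Infinite.natEmbedding Ω
  let node : ℕ × G × ℕ → Ω := fun q => emb (Nat.pair q.1 (Nat.pair (idx q.2.1) q.2.2))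
  let J : Finset (ℕ × G × ℕ) := range (l + 1) ×ˢ S ×ˢ range (2 ^ l)
  let N : Set Ω := (J.image node : Finset Ω)
  let L := IntermediateField.adjoin k N
  have hfd : FiniteDimensional k L := by
    have : Finite N := (J.image node).finite_toSet
    exact IntermediateField.finiteDimensional_adjoin fun x _ =>
      Algebra.IsIntegral.isIntegral x
  have hmem : ∀ i s c, i ≤ l → s ∈ S → c < 2 ^ (l - i) → node (i, s, c) ∈ L := by
    intro i s c hi hs hc
    apply IntermediateField.subset_adjoin
    refine Finset.mem_coe.2 (Finset.mem_image_of_mem _ ?_)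
    refine Finset.mem_product.2 ⟨Finset.mem_range.2 (by omega), Finset.mem_product.2 ⟨hs, ?_⟩⟩
    refine Finset.mem_range.2 (hc.trans_le (Nat.pow_le_pow_right (by norm_num) (by omega)))
  refine ⟨L, inferInstance, inferInstance, hfd,
    fun i s c => if h : node (i, s, c) ∈ L then ⟨node (i, s, c), h⟩ else 0, ?_⟩
  intro i s c i' s' c' hi hs hc hi' hs' hc' heq
  beta_reduce at heq
  rw [dif_pos (hmem i s c hi hs hc), dif_pos (hmem i' s' c' hi' hs' hc')] at heq
  have h1 : node (i, s, c) = node (i', s', c') := congrArg Subtype.val heq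
  have h2 := emb.injective h1
  rw [Nat.pair_eq_pair, Nat.pair_eq_pair] at h2
  exact ⟨h2.1, hidx hs hs' h2.2.1, h2.2.2⟩

/-- the local rule of the cellular automaton -/
noncomputable def rule (k : Type u) [Field k] {L : Type u} [Field L] [Algebra k L] (n l : ℕ)
    (ν : ℕ → ℕ → L) : (Fin n → L) →ₗ[k] (Fin (l + 1) × Fin (2 ^ l) → L) where
  toFun u := fun q => ∑ c ∈ range (2 ^ (l - (q.1 : ℕ))),
    (∑ j : Fin n, u j * ν q.1 c ^ (j : ℕ)) * ν q.1 c ^ (q.2 : ℕ)
  map_add' u v := by
    funext q
    simp only [Pi.add_apply, add_mul, Finset.sum_add_distrib]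
  map_smul' a u := by
    funext q
    simp only [Pi.smul_apply, RingHom.id_apply, smul_mul_assoc, ← Finset.smul_sum]

/-- a linear map from a space of dimension `2 m` to a space of dimension `m` kills the image of an
injective map from a space of dimension `m` -/
theorem exists_into_ker {k U V : Type*} [Field k] [AddCommGroup U] [Module k U]
    [AddCommGroup V] [Module k V] [FiniteDimensional k U] [FiniteDimensional k V] {m : ℕ}
    (hV : Module.finrank k V = m) (hU : Module.finrank k U = 2 * m) (B : U →ₗ[k] V) :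
    ∃ γ : (Fin m → k) →ₗ[k] U, Function.Injective γ ∧ B ∘ₗ γ = 0 := by
  have h1 := LinearMap.finrank_range_add_finrank_ker B
  have h2 : Module.finrank k (LinearMap.range B) ≤ Module.finrank k V :=
    Submodule.finrank_le _
  have h3 : m ≤ Module.finrank k (LinearMap.ker B) := by omega
  let b := Module.finBasis k (LinearMap.ker B)
  let v : Fin m → U := fun j => (b (Fin.castLE h3 j) : U)
  have hv : LinearIndependent k v := by
    have h4 : LinearIndependent k fun j : Fin m => b (Fin.castLE h3 j) :=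
      b.linearIndependent.comp _ (Fin.castLE_injective h3)
    exact h4.map' (LinearMap.ker B).subtype (Submodule.ker_subtype _)
  refine ⟨Fintype.linearCombination k v, ?_, ?_⟩
  · intro x y hxy
    have h5 := Fintype.linearIndependent_iff.1 hv (x - y) (by
      have h6 : Fintype.linearCombination k v (x - y) = 0 := by rw [map_sub, hxy, sub_self]
      rwa [Fintype.linearCombination_apply] at h6)
    funext i
    exact sub_eq_zero.1 (h5 i)
  · ext i
    simp only [LinearMap.comp_apply, LinearMap.zero_apply]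
    rw [Fintype.linearCombination_apply, map_sum]
    refine Finset.sum_eq_zero fun j _ => ?_
    rw [map_smul]
    have : B (v j) = 0 := (b (Fin.castLE h3 j)).2
    rw [this, smul_zero]

open Classical in
theorem exists_inj (k : Type u) [Field k] {G : Type*} [Group G] (h : ¬ Amen G) :
    ∃ (m : ℕ) (Φ : Matrix (Fin m) (Fin m) (MonoidAlgebra k G)), 0 < m ∧
      (∀ i j, aug k G (Φ i j) = 0) ∧
      ∀ x : Fin m → MonoidAlgebra k G, Φ.mulVec x = 0 → x = 0 := by
  obtain ⟨S, l, hS, hexp⟩ := exists_expander h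
  obtain ⟨L, _, _, _, ν, hν⟩ := exists_nodes k S l
  obtain ⟨n, hn⟩ : ∃ n : ℕ, n = 2 * ((l + 1) * 2 ^ l) := ⟨_, rfl⟩
  have hn0 : 0 < n := by rw [hn]; positivity
  have hd : 0 < Module.finrank k L := Module.finrank_pos
  obtain ⟨m, hm⟩ : ∃ m : ℕ, m = (l + 1) * 2 ^ l * Module.finrank k L := ⟨_, rfl⟩
  have hV : Module.finrank k (Fin (l + 1) × Fin (2 ^ l) → L) = m := by
    rw [Module.finrank_pi_fintype, hm]
    simp
  have hU : Module.finrank k (Fin n → L) = 2 * m := by
    rw [Module.finrank_pi_fintype, hm, hn]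
    simp only [Finset.sum_const, Finset.card_univ, Fintype.card_fin, smul_eq_mul]
    ring
  obtain ⟨A, hA⟩ : ∃ A : G → (Fin n → L) →ₗ[k] (Fin (l + 1) × Fin (2 ^ l) → L),
      ∀ s, A s = rule k n l (fun i c => ν i s c) := ⟨_, fun s => rfl⟩
  obtain ⟨γ, hγinj, hγ⟩ := exists_into_ker hV hU (∑ s ∈ S, A s)
  let e : (Fin (l + 1) × Fin (2 ^ l) → L) ≃ₗ[k] (Fin m → k) :=
    (Module.finBasisOfFinrankEq k _ hV).equivFun
  obtain ⟨a, ha⟩ : ∃ a : G → (Fin m → k) →ₗ[k] (Fin m → k),
      ∀ s, a s = e.toLinearMap ∘ₗ A s ∘ₗ γ := ⟨_, fun s => rfl⟩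
  have hasum : ∑ s ∈ S, a s = 0 := by
    have h1 : ∑ s ∈ S, a s = e.toLinearMap ∘ₗ ((∑ s ∈ S, A s) ∘ₗ γ) := by
      refine LinearMap.ext fun x => ?_
      simp [ha, LinearMap.sum_apply, map_sum]
    rw [h1, hγ, LinearMap.comp_zero]
  obtain ⟨M, hM⟩ : ∃ M : G → Matrix (Fin m) (Fin m) k, ∀ s, M s = LinearMap.toMatrix' (a s) :=
    ⟨_, fun s => rfl⟩
  refine ⟨m, fun i j => ∑ s ∈ S, MonoidAlgebra.single s (M s i j), ?_, ?_, ?_⟩
  · rw [hm]; positivity
  · intro i j
    rw [map_sum]
    simp only [MP331e4f.aug_single]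
    have h1 : (∑ s ∈ S, M s) i j = 0 := by
      simp only [hM]
      rw [← map_sum, hasum, map_zero]
      rfl
    rw [Matrix.sum_apply] at h1
    exact h1
  · intro x hx
    obtain ⟨g, hg⟩ : ∃ g : G → Fin m → k, ∀ y j, g y j = (x j).coeff y := ⟨_, fun y j => rfl⟩
    -- the relation
    have hrel : ∀ y, ∑ s ∈ S, A s (γ (g (s⁻¹ * y))) = 0 := by
      intro y
      apply e.injective
      rw [map_sum, map_zero]
      funext i
      rw [Finset.sum_apply]
      have h1 : ∀ s, e (A s (γ (g (s⁻¹ * y)))) i = ∑ j, M s i j * (x j).coeff (s⁻¹ * y) := by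
        intro s
        have h2 : e (A s (γ (g (s⁻¹ * y)))) = (M s).mulVec (g (s⁻¹ * y)) := by
          rw [hM, LinearMap.toMatrix'_mulVec, ha]
          rfl
        rw [h2]
        simp only [Matrix.mulVec, dotProduct, hg]
      simp only [h1]
      have h3 := congrFun hx i
      have h4 := congrArg (fun w : MonoidAlgebra k G => w.coeff y) h3
      simp only [Matrix.mulVec, dotProduct, Pi.zero_apply, MonoidAlgebra.coeff_zero,
        Finsupp.coe_zero] at h4
      rw [MonoidAlgebra.coeff_sum, Finsupp.finsetSum_apply] at h4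
      rw [Finset.sum_comm]
      refine Eq.trans ?_ h4
      refine Finset.sum_congr rfl fun j _ => ?_
      rw [Finset.sum_mul, MonoidAlgebra.coeff_sum, Finsupp.finsetSum_apply]
      refine Finset.sum_congr rfl fun s _ => ?_
      rw [MonoidAlgebra.coeff_single_mul_apply]
    obtain ⟨F, hF⟩ : ∃ F : Finset G, ∀ y, tp (γ (g y)) ≠ 0 ↔ y ∈ F := by
      refine ⟨(Finset.univ.biUnion fun j => (x j).coeff.support).filter
        fun y => tp (γ (g y)) ≠ 0, fun y => ?_⟩
      rw [Finset.mem_filter]
      refine ⟨fun hy => ⟨?_, hy⟩, fun hy => hy.2⟩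
      by_contra hy0
      apply hy
      have : g y = 0 := by
        funext j
        by_contra hj
        rw [hg] at hj
        exact hy0 (Finset.mem_biUnion.2 ⟨j, Finset.mem_univ _, Finsupp.mem_support_iff.2 hj⟩)
      rw [this, map_zero]
      simp [tp]
    have hcore := core S l hS hexp ν hν (fun y => tp (γ (g y))) F hF
      (fun y => hn ▸ tp_natDegree hn0 _) (by
        intro y i hi t ht
        have h1 := congrFun (hrel y) (⟨i, by omega⟩, ⟨t, ht⟩)
        rw [Finset.sum_apply] at h1
        refine Eq.trans ?_ h1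
        refine Finset.sum_congr rfl fun s _ => ?_
        simp only [hA, tp_eval]
        rfl)
    funext j
    apply MonoidAlgebra.ext
    ext y
    have h1 := tp_eq_zero (congrFun hcore y)
    have h2 : g y = 0 := hγinj (by rw [h1, map_zero])
    have h3 := congrFun h2 j
    rw [hg] at h3
    exact h3

end MP331e4fAm
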