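import Pool.Agent.Lib_MP_331e4f_am.Rank

/-!
# Local group algebras of direct products: one of the factors is amenable
-/

open Finset

universe u

namespace MP331e4fAm

open MP331e4f (aug AugRad)

section slice

variable {K : Type*} [Field K] {P Q : Type*} [Group P] [Group Q]

/-- the coefficient at `q`, an element of `K[P]`, of an element of `K[P × Q] = K[P][Q]` -/
noncomputable def slice (q : Q) (x : MonoidAlgebra K (P × Q)) : MonoidAlgebra K P :=
  MonoidAlgebra.ofCoeff (Finsupp.comapDomain (fun p => (p, q)) x.coeff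
    (fun _ _ _ _ h => (Prod.mk.inj h).1))

omit [Group P] [Group Q] in
theorem slice_coeff (q : Q) (x : MonoidAlgebra K (P × Q)) (p : P) :
    (slice q x).coeff p = x.coeff (p, q) := rfl

theorem slice_zero (q : Q) : slice q (0 : MonoidAlgebra K (P × Q)) = 0 := by
  apply MonoidAlgebra.ext
  ext p
  rfl

theorem slice_add (q : Q) (x y : MonoidAlgebra K (P × Q)) :
    slice q (x + y) = slice q x + slice q y := by
  apply MonoidAlgebra.ext
  ext p
  rw [slice_coeff, MonoidAlgebra.coeff_add, MonoidAlgebra.coeff_add, Finsupp.add_apply,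
    Finsupp.add_apply, slice_coeff, slice_coeff]

theorem slice_sum {ι : Type*} (q : Q) (s : Finset ι) (f : ι → MonoidAlgebra K (P × Q)) :
    slice q (∑ i ∈ s, f i) = ∑ i ∈ s, slice q (f i) := by
  classical
  induction s using Finset.induction_on with
  | empty => simp [slice_zero]
  | insert a s ha ih => rw [Finset.sum_insert ha, Finset.sum_insert ha, slice_add, ih]

theorem slice_one [DecidableEq Q] (q : Q) :
    slice q (1 : MonoidAlgebra K (P × Q)) = if q = 1 then 1 else 0 := by
  classical
  apply MonoidAlgebra.ext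
  ext p
  rw [slice_coeff, MonoidAlgebra.one_def, MonoidAlgebra.coeff_single, Finsupp.single_apply]
  by_cases hq : q = 1
  · rw [if_pos hq, MonoidAlgebra.one_def, MonoidAlgebra.coeff_single, Finsupp.single_apply]
    by_cases hp : p = 1
    · rw [if_pos (by rw [hp, hq]; rfl), if_pos hp.symm]
    · rw [if_neg (fun h => hp (congrArg Prod.fst h).symm), if_neg (fun h => hp h.symm)]
  · rw [if_neg hq, if_neg (fun h => hq (congrArg Prod.snd h).symm)]
    rfl

theorem slice_single_mul (q : Q) (p' : P) (q' : Q) (c : K) (y : MonoidAlgebra K (P × Q)) :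
    slice q (MonoidAlgebra.single (p', q') c * y) =
      MonoidAlgebra.single p' c * slice (q'⁻¹ * q) y := by
  apply MonoidAlgebra.ext
  ext p
  rw [slice_coeff, MonoidAlgebra.coeff_single_mul_apply, MonoidAlgebra.coeff_single_mul_apply,
    slice_coeff]
  rfl

/-- the embedding of the group algebra of the first factor -/
noncomputable def i1 : MonoidAlgebra K P →+* MonoidAlgebra K (P × Q) :=
  MonoidAlgebra.mapDomainRingHom K (MonoidHom.inl P Q)

/-- the embedding of the group algebra of the second factor -/
noncomputable def i2 : MonoidAlgebra K Q →+* MonoidAlgebra K (P × Q) :=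
  MonoidAlgebra.mapDomainRingHom K (MonoidHom.inr P Q)

theorem i1_single (p : P) (c : K) :
    i1 (Q := Q) (MonoidAlgebra.single p c) = MonoidAlgebra.single (p, 1) c := by
  simp [i1, MonoidAlgebra.mapDomainRingHom]

theorem i2_single (q : Q) (c : K) :
    i2 (P := P) (MonoidAlgebra.single q c) = MonoidAlgebra.single (1, q) c := by
  simp [i2, MonoidAlgebra.mapDomainRingHom]

theorem aug_i1 (a : MonoidAlgebra K P) : aug K (P × Q) (i1 a) = aug K P a := by
  induction a using MonoidAlgebra.induction_linear with
  | zero => simp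
  | add a b ha hb => rw [map_add, map_add, map_add, ha, hb]
  | single g c => rw [i1_single, MP331e4f.aug_single, MP331e4f.aug_single]

theorem slice_mul (q : Q) (a : MonoidAlgebra K P) (b : MonoidAlgebra K Q)
    (y : MonoidAlgebra K (P × Q)) :
    slice q (i1 a * i2 b * y) = b.coeff.sum fun g c => c • (a * slice (g⁻¹ * q) y) := by
  induction a using MonoidAlgebra.induction_linear with
  | zero => simp [slice_zero]
  | add a a' ha ha' =>
    rw [map_add, add_mul, add_mul, slice_add, ha, ha', ← Finsupp.sum_add]
    refine Finsupp.sum_congr fun g _ => ?_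
    rw [add_mul, smul_add]
  | single p c =>
    induction b using MonoidAlgebra.induction_linear with
    | zero => simp [slice_zero]
    | add b b' hb hb' =>
      rw [map_add, mul_add, add_mul, slice_add, hb, hb', MonoidAlgebra.coeff_add,
        Finsupp.sum_add_index']
      · intro g; rw [zero_smul]
      · intro g c c'; rw [add_smul]
    | single g d =>
      rw [i1_single, i2_single, MonoidAlgebra.single_mul_single, Prod.mk_mul_mk, mul_one, one_mul,
        slice_single_mul, MonoidAlgebra.coeff_single, Finsupp.sum_single_index, ← smul_mul_assoc,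
        MonoidAlgebra.smul_single, smul_eq_mul, mul_comm c d]
      rw [zero_smul]

end slice

/-- a matrix acting on vectors, as a linear map over the ground field -/
noncomputable def tl {K : Type*} [Field K] {P : Type*} [Group P] {m : ℕ}
    (u : Matrix (Fin m) (Fin m) (MonoidAlgebra K P)) :
    (Fin m → MonoidAlgebra K P) →ₗ[K] (Fin m → MonoidAlgebra K P) where
  toFun := u.mulVec
  map_add' := Matrix.mulVec_add u
  map_smul' c v := Matrix.mulVec_smul u c v

theorem pair (K : Type u) [Field K] {P Q : Type*} [Group P] [Group Q]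
    (haug : AugRad K (P × Q)) : Amen P ∨ Amen Q := by
  classical
  by_contra hcon
  push Not at hcon
  obtain ⟨m1, u, hm1, hεu, hinju⟩ := exists_inj K hcon.1
  obtain ⟨m2, Φ, hm2, hεΦ, hinjΦ⟩ := exists_inj K hcon.2
  obtain ⟨W, hW⟩ : ∃ W : Matrix (Fin m1 × Fin m2) (Fin m1 × Fin m2) (MonoidAlgebra K (P × Q)),
    ∀ a b, W a b = i1 (u a.1 b.1) * i2 (Φ a.2 b.2) := ⟨_, fun _ _ => rfl⟩
  have hX : (aug K (P × Q)).toRingHom.mapMatrix (1 - W) = 1 := by
    rw [map_sub, map_one]
    have h1 : (aug K (P × Q)).toRingHom.mapMatrix W = 0 := by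
      ext i j
      simp only [RingHom.mapMatrix_apply, Matrix.map_apply, Matrix.zero_apply,
        AlgHom.toRingHom_eq_coe, RingHom.coe_coe, hW]
      rw [map_mul, aug_i1, hεu, zero_mul]
    rw [h1, sub_zero]
  obtain ⟨Y, hY⟩ := haug.exists_inv (1 - W) (by rw [hX]; exact isUnit_one)
  have hY' : Y = 1 + W * Y := by
    rw [sub_mul, one_mul] at hY
    rw [← hY]; abel
  obtain ⟨j0, hj0⟩ : ∃ j0 : Fin m1, j0 = ⟨0, hm1⟩ := ⟨_, rfl⟩
  obtain ⟨i0, hi0⟩ : ∃ i0 : Fin m2, i0 = ⟨0, hm2⟩ := ⟨_, rfl⟩
  obtain ⟨z, hz⟩ : ∃ z : Fin m2 → Q → (Fin m1 → MonoidAlgebra K P),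
    ∀ i q j, z i q j = slice q (Y (j, i) (j0, i0)) := ⟨_, fun _ _ _ => rfl⟩
  obtain ⟨V, hV, h1, h2⟩ := rank_lemma Φ hεΦ hinjΦ z (fun i => by
      refine Set.Finite.subset (s := ⋃ j : Fin m1, Prod.snd ''
        {pq : P × Q | (Y (j, i) (j0, i0)).coeff pq ≠ 0}) ?_ ?_
      · exact Set.finite_iUnion fun j => Set.Finite.image _
          (Y (j, i) (j0, i0)).coeff.hasFiniteSupport
      · intro q hq
        by_contra hq'
        apply hq
        funext j
        rw [hz]
        apply MonoidAlgebra.ext
        ext p
        rw [slice_coeff]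
        by_contra h0
        exact hq' (Set.mem_iUnion.2 ⟨j, (p, q), h0, rfl⟩))
    (fun j => if j = j0 then 1 else 0) i0 (tl u) (by
      intro i q
      funext j
      rw [hz, hY', Matrix.add_apply, slice_add, Pi.add_apply]
      congr 1
      · rw [Matrix.one_apply]
        by_cases hi : i = i0
        · by_cases hj : j = j0
          · rw [if_pos (by rw [hi, hj]), slice_one]
            by_cases hq : q = 1
            · simp [hi, hj, hq]
            · simp [hq]
          · rw [if_neg (fun h => hj (congrArg Prod.fst h)), slice_zero]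
            by_cases hq : q = 1
            · simp [hi, hj, hq]
            · simp [hq]
        · rw [if_neg (fun h => hi (congrArg Prod.snd h)), slice_zero]
          simp [hi]
      · rw [Matrix.mul_apply, slice_sum, Fintype.sum_prod_type]
        change _ = ∑ j', u j j' * act Φ z i q j'
        refine Finset.sum_congr rfl fun j' _ => ?_
        unfold act
        rw [Finset.sum_apply, Finset.mul_sum]
        refine Finset.sum_congr rfl fun i' _ => ?_
        rw [hW, slice_mul, Finsupp.sum, Finsupp.sum, Finset.sum_apply, Finset.mul_sum]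
        refine Finset.sum_congr rfl fun g _ => ?_
        rw [Pi.smul_apply, hz, mul_smul_comm])
  have hfd : FiniteDimensional K V := by
    rw [FiniteDimensional, Module.finite_def, Submodule.fg_top]
    exact hV
  have hinjT : Function.Injective ((tl u).restrict h2) := by
    rw [← LinearMap.ker_eq_bot, LinearMap.ker_eq_bot']
    intro v hv
    have h3 : u.mulVec (v : Fin m1 → MonoidAlgebra K P) = 0 := congrArg Subtype.val hv
    exact Subtype.ext (hinju _ h3)
  obtain ⟨v, hv⟩ := (LinearMap.injective_iff_surjective.1 hinjT) ⟨_, h1⟩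
  have h3 := congrArg (fun v : V => (v : Fin m1 → MonoidAlgebra K P) j0) hv
  have h4 : (∑ j', u j0 j' * (v : Fin m1 → MonoidAlgebra K P) j') = 1 := by
    refine Eq.trans h3 ?_
    simp
  have h5 := congrArg (aug K P) h4
  rw [map_sum, Finset.sum_eq_zero (fun j' _ => by rw [map_mul, hεu, zero_mul]), map_one] at h5
  exact zero_ne_one h5

end MP331e4fAm
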