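import Pool.Agent.Lib_MP_331e4f_am.Inj

/-!
# A rank argument

`Φ` is an injective matrix of augmentation zero over `k[Q]`. If a vector `z` with coefficients in a
`k`-space `A` satisfies `z = a₀ e + T Φ z`, then the space spanned by the coefficients of `z` contains
`a₀` and is invariant under `T`.
-/

open Finset

namespace MP331e4fAm

open MP331e4f (aug)

variable {k Q A I : Type*} [Field k] [Group Q] [AddCommGroup A] [Module k A] [Fintype I]

/-- the action of a matrix over `k[Q]` on vectors of functions on `Q` with values in `A` -/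
noncomputable def act (Φ : Matrix I I (MonoidAlgebra k Q)) (z : I → Q → A) (i : I) (q : Q) : A :=
  ∑ j, (Φ i j).coeff.sum fun g c => c • z j (g⁻¹ * q)

theorem coeff_mul_eq_sum (a w : MonoidAlgebra k Q) (q : Q) :
    (a * w).coeff q = a.coeff.sum fun g c => c * w.coeff (g⁻¹ * q) := by
  induction a using MonoidAlgebra.induction_linear with
  | zero => simp
  | add f g hf hg =>
    rw [add_mul, MonoidAlgebra.coeff_add, Finsupp.add_apply, hf, hg, MonoidAlgebra.coeff_add,
      Finsupp.sum_add_index']
    · intro g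
      simp
    · intro g b c
      ring
  | single g c =>
    rw [MonoidAlgebra.coeff_single_mul_apply, MonoidAlgebra.coeff_single, Finsupp.sum_single_index]
    simp

open Classical in
theorem rank_lemma [DecidableEq I] (Φ : Matrix I I (MonoidAlgebra k Q))
    (hε : ∀ i j, aug k Q (Φ i j) = 0)
    (hinj : ∀ x : I → MonoidAlgebra k Q, Φ.mulVec x = 0 → x = 0)
    (z : I → Q → A) (hfin : ∀ i, {q | z i q ≠ 0}.Finite) (a₀ : A) (i₀ : I) (T : A →ₗ[k] A)
    (hz : ∀ i q, z i q = (if i = i₀ ∧ q = 1 then a₀ else 0) + T (act Φ z i q)) :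
    ∃ V : Submodule k A, V.FG ∧ a₀ ∈ V ∧ ∀ v ∈ V, T v ∈ V := by
  set V : Submodule k A := Submodule.span k (⋃ i, (z i) '' {q | z i q ≠ 0}) with hV
  have hmemV : ∀ i q, z i q ∈ V := by
    intro i q
    by_cases h : z i q = 0
    · rw [h]; exact V.zero_mem
    · exact Submodule.subset_span (Set.mem_iUnion.2 ⟨i, q, h, rfl⟩)
  have key : ∀ φ : A →ₗ[k] k, (∀ v ∈ V, φ v = 0) → φ a₀ = 0 ∧ ∀ i q, φ (T (z i q)) = 0 := by
    intro φ hφ
    set w : I → MonoidAlgebra k Q := fun i => MonoidAlgebra.ofCoeff
      (Finsupp.ofSupportFinite (fun q => φ (T (z i q))) ((hfin i).subset (by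
        intro q hq hz0
        apply hq
        simp [hz0]))) with hw
    have hwc : ∀ i q, (w i).coeff q = φ (T (z i q)) := fun i q => rfl
    have h1 : ∀ i q, (Φ.mulVec w i).coeff q = φ (T (act Φ z i q)) := by
      intro i q
      simp only [Matrix.mulVec, dotProduct, act]
      rw [MonoidAlgebra.coeff_sum, Finsupp.finsetSum_apply, map_sum, map_sum]
      refine Finset.sum_congr rfl fun j _ => ?_
      rw [coeff_mul_eq_sum, Finsupp.sum, Finsupp.sum, map_sum, map_sum]
      refine Finset.sum_congr rfl fun g _ => ?_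
      rw [hwc, map_smul, map_smul, smul_eq_mul]
    have h2 : ∀ i, Φ.mulVec w i = MonoidAlgebra.single 1 (if i = i₀ then - φ a₀ else 0) := by
      intro i
      apply MonoidAlgebra.ext
      ext q
      rw [h1, MonoidAlgebra.coeff_single, Finsupp.single_apply]
      have h3 := congrArg φ (hz i q)
      rw [hφ _ (hmemV i q), map_add] at h3
      by_cases hi : i = i₀
      · by_cases hq : q = 1
        · rw [if_pos ⟨hi, hq⟩] at h3
          rw [if_pos hi, if_pos hq.symm]
          exact eq_neg_of_add_eq_zero_right h3.symm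
        · rw [if_neg (fun h => hq h.2), map_zero, zero_add] at h3
          rw [if_neg (fun h => hq h.symm)]
          exact h3.symm
      · rw [if_neg (fun h => hi h.1), map_zero, zero_add] at h3
        rw [if_neg hi, ite_self]
        exact h3.symm
    have h3 : φ a₀ = 0 := by
      have h4 := congrArg (aug k Q) (h2 i₀)
      rw [MP331e4f.aug_single, if_pos rfl] at h4
      simp only [Matrix.mulVec, dotProduct] at h4
      rw [map_sum, Finset.sum_eq_zero (fun j _ => by rw [map_mul, hε, zero_mul])] at h4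
      exact neg_eq_zero.1 h4.symm
    refine ⟨h3, ?_⟩
    have h5 : w = 0 := by
      apply hinj
      funext i
      rw [h2 i, h3]
      simp
    intro i q
    rw [← hwc, h5]
    rfl
  refine ⟨V, ?_, ?_, ?_⟩
  · exact ⟨(Set.finite_iUnion fun i => (hfin i).image _).toFinset, by
      rw [Set.Finite.coe_toFinset]⟩
  · by_contra hcon
    obtain ⟨φ, hφ1, hφ2⟩ := Submodule.exists_le_ker_of_notMem hcon
    exact hφ1 (key φ fun v hv => LinearMap.mem_ker.1 (hφ2 hv)).1
  · intro v hv
    by_contra hcon
    obtain ⟨φ, hφ1, hφ2⟩ := Submodule.exists_le_ker_of_notMem hcon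
    apply hφ1
    have h1 := (key φ fun v hv => LinearMap.mem_ker.1 (hφ2 hv)).2
    have h2 : V ≤ LinearMap.ker (φ ∘ₗ T) := by
      rw [hV, Submodule.span_le]
      rintro _ ⟨_, ⟨i, rfl⟩, q, _, rfl⟩
      exact h1 i q
    exact h2 hv

end MP331e4fAm
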