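import Pool.Agent.Lib_MP_331e4f_am.Rank

/-!
# Fields which are not algebraic over a subfield: local group algebras of amenable groups only
-/

open Finset

universe u v

namespace MP331e4fAm

open MP331e4f (aug AugRad)

theorem aug_mapRingHom {k K : Type*} [Field k] [Field K] (f : k →+* K) {G : Type*} [Group G]
    (a : MonoidAlgebra k G) : aug K G (MonoidAlgebra.mapRingHom G f a) = f (aug k G a) := by
  induction a using MonoidAlgebra.induction_linear with
  | zero => simp
  | add a b ha hb => rw [map_add, map_add, ha, hb, map_add, map_add]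
  | single g c => rw [MonoidAlgebra.mapRingHom_single, MP331e4f.aug_single, MP331e4f.aug_single]

theorem sum_coeff_mapRingHom {k K : Type*} [Field k] [Field K] (f : k →+* K) {G : Type*} [Group G]
    (a : MonoidAlgebra k G) (F : G → K) :
    ((MonoidAlgebra.mapRingHom G f a).coeff.sum fun g c => c * F g) =
      a.coeff.sum fun g c => f c * F g := by
  induction a using MonoidAlgebra.induction_linear with
  | zero => simp
  | add a b ha hb =>
    rw [map_add, MonoidAlgebra.coeff_add, MonoidAlgebra.coeff_add, Finsupp.sum_add_index',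
      Finsupp.sum_add_index', ha, hb]
    · intro g; simp
    · intro g b c; rw [map_add, add_mul]
    · intro g; simp
    · intro g b c; rw [add_mul]
  | single g c =>
    rw [MonoidAlgebra.mapRingHom_single, MonoidAlgebra.coeff_single, MonoidAlgebra.coeff_single,
      Finsupp.sum_single_index, Finsupp.sum_single_index]
    · simp
    · simp

theorem isAlgebraic_of_submodule {k K : Type*} [Field k] [Field K] [Algebra k K] {x : K}
    (V : Submodule k K) (hV : V.FG) (h1 : (1 : K) ∈ V) (hx : ∀ v ∈ V, x * v ∈ V) :
    IsAlgebraic k x := by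
  have hpow : ∀ n : ℕ, x ^ n ∈ V := by
    intro n
    induction n with
    | zero => simpa using h1
    | succ n ih => rw [pow_succ']; exact hx _ ih
  have hle : Subalgebra.toSubmodule (Algebra.adjoin k {x}) ≤ V := by
    intro y hy
    rw [Subalgebra.mem_toSubmodule, Algebra.adjoin_singleton_eq_range_aeval] at hy
    obtain ⟨p, rfl⟩ := hy
    change Polynomial.aeval x p ∈ V
    rw [Polynomial.aeval_eq_sum_range]
    exact V.sum_mem fun i _ => V.smul_mem _ (hpow i)
  have : FiniteDimensional k V := by
    rw [FiniteDimensional, Module.finite_def, Submodule.fg_top]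
    exact hV
  have h2 : FiniteDimensional k (Subalgebra.toSubmodule (Algebra.adjoin k {x})) :=
    Submodule.finiteDimensional_of_le hle
  have h3 : (Subalgebra.toSubmodule (Algebra.adjoin k {x})).FG :=
    (Submodule.fg_iff_finiteDimensional _).2 h2
  exact (IsIntegral.of_mem_of_fg (Algebra.adjoin k {x}) h3 x
    (Algebra.self_mem_adjoin_singleton k x)).isAlgebraic

theorem amen_of_transcendental {k : Type u} {K : Type v} [Field k] [Field K] [Algebra k K] {x : K}
    (hx : Transcendental k x) {G : Type*} [Group G] (haug : AugRad K G) : Amen G := by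
  classical
  by_contra h
  obtain ⟨m, Φ, hm, hε, hinj⟩ := exists_inj k h
  obtain ⟨ΦK, hΦK⟩ : ∃ ΦK : Matrix (Fin m) (Fin m) (MonoidAlgebra K G),
    ∀ i j, ΦK i j = MonoidAlgebra.mapRingHom G (algebraMap k K) (Φ i j) := ⟨_, fun _ _ => rfl⟩
  have hX : (aug K G).toRingHom.mapMatrix (1 - x • ΦK) = 1 := by
    rw [map_sub, map_one]
    have h1 : (aug K G).toRingHom.mapMatrix (x • ΦK) = 0 := by
      ext i j
      simp only [RingHom.mapMatrix_apply, Matrix.map_apply, Matrix.smul_apply, Matrix.zero_apply,
        AlgHom.toRingHom_eq_coe, RingHom.coe_coe, map_smul, hΦK]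
      rw [aug_mapRingHom, hε, map_zero, smul_zero]
    rw [h1, sub_zero]
  obtain ⟨Y, hY⟩ := haug.exists_inv (1 - x • ΦK) (by rw [hX]; exact isUnit_one)
  have hmul : ∀ (i j : Fin m) (w : MonoidAlgebra K G) (q : G),
      (ΦK i j * w).coeff q = (Φ i j).coeff.sum fun g c => c • w.coeff (g⁻¹ * q) := by
    intro i j w q
    rw [coeff_mul_eq_sum, hΦK, sum_coeff_mapRingHom]
    refine Finsupp.sum_congr fun g _ => ?_
    rw [Algebra.smul_def]
  obtain ⟨V, hV, h1, h2⟩ := rank_lemma Φ hε hinj (fun i q => (Y i ⟨0, hm⟩).coeff q)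
    (fun i => (Y i ⟨0, hm⟩).coeff.hasFiniteSupport) (1 : K) ⟨0, hm⟩ (LinearMap.mulLeft k x) (by
      intro i q
      have h3 := congrArg (fun M : Matrix (Fin m) (Fin m) (MonoidAlgebra K G) =>
        (M i ⟨0, hm⟩).coeff q) hY
      simp only [sub_mul, one_mul, Matrix.sub_apply, MonoidAlgebra.coeff_sub, Finsupp.sub_apply] at h3
      rw [sub_eq_iff_eq_add] at h3
      rw [h3]
      congr 1
      · rw [Matrix.one_apply]
        by_cases hi : i = ⟨0, hm⟩
        · rw [if_pos hi, MonoidAlgebra.one_def, MonoidAlgebra.coeff_single, Finsupp.single_apply]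
          by_cases hq : q = 1
          · rw [if_pos hq.symm, if_pos ⟨hi, hq⟩]
          · rw [if_neg (fun h => hq h.symm), if_neg (fun h => hq h.2)]
        · rw [if_neg hi, if_neg (fun h => hi h.1)]
          rfl
      · rw [Matrix.smul_mul, Matrix.smul_apply, MonoidAlgebra.coeff_smul, Finsupp.smul_apply,
          smul_eq_mul, LinearMap.mulLeft_apply, Matrix.mul_apply, MonoidAlgebra.coeff_sum,
          Finsupp.finsetSum_apply]
        congr 1
        unfold act
        exact Finset.sum_congr rfl fun j _ => hmul i j _ q)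
  exact hx (isAlgebraic_of_submodule V hV h1 h2)

end MP331e4fAm
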